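import Pool.Agent.Helper6.EC_B.Goals

/-!
# GL1: the rotated integral for `K`
-/

set_option autoImplicit false

open MeasureTheory Filter Topology Set

namespace EC237.PB.PkGL1

theorem le_cosh {u : ℝ} (hu : 0 ≤ u) : u ≤ Real.cosh u := by
  have h1 : u + 1 ≤ Real.exp u := Real.add_one_le_exp u
  have h2 : Real.sinh u ≤ Real.cosh u := (Real.sinh_lt_cosh u).le
  have h3 : u ≤ Real.sinh u := Real.self_le_sinh_iff.2 hu
  linarith

theorem int_exp {c : ℝ} (hc : 0 < c) :
    IntegrableOn (fun u : ℝ => Real.exp (-(c * Real.cosh u))) (Ioi 0) := by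
  have h1 : IntegrableOn (fun u : ℝ => Real.exp (-c * u)) (Ioi 0) := exp_neg_integrableOn_Ioi 0 hc
  refine Integrable.mono' h1 ?_ ?_
  · exact (by fun_prop : Continuous fun u : ℝ => Real.exp (-(c * Real.cosh u))).aestronglyMeasurable
  · refine (ae_restrict_iff' measurableSet_Ioi).2 (ae_of_all _ fun u hu => ?_)
    rw [Real.norm_of_nonneg (Real.exp_pos _).le]
    apply Real.exp_le_exp.2
    have := le_cosh (le_of_lt hu)
    nlinarith

theorem int_cosh_exp {c : ℝ} (hc : 0 < c) :
    IntegrableOn (fun u : ℝ => Real.cosh u * Real.exp (-(c * Real.cosh u))) (Ioi 0) := by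
  have h1 : IntegrableOn (fun u : ℝ => (2 / c) * Real.exp (-(c / 2 * Real.cosh u))) (Ioi 0) :=
    (int_exp (half_pos hc)).const_mul _
  refine Integrable.mono' h1 ?_ ?_
  · exact (by fun_prop : Continuous fun u : ℝ =>
      Real.cosh u * Real.exp (-(c * Real.cosh u))).aestronglyMeasurable
  · refine (ae_restrict_iff' measurableSet_Ioi).2 (ae_of_all _ fun u _ => ?_)
    have hx := Real.cosh_pos u
    rw [Real.norm_of_nonneg (mul_nonneg hx.le (Real.exp_pos _).le)]
    have h2 : Real.exp (-(c * Real.cosh u)) =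
        Real.exp (-(c / 2 * Real.cosh u)) * Real.exp (-(c / 2 * Real.cosh u)) := by
      rw [← Real.exp_add]
      congr 1
      ring
    have h3 : c / 2 * Real.cosh u ≤ Real.exp (c / 2 * Real.cosh u) := by
      have := Real.add_one_le_exp (c / 2 * Real.cosh u)
      linarith
    have h4 : c / 2 * Real.cosh u * Real.exp (-(c / 2 * Real.cosh u)) ≤ 1 := by
      rw [Real.exp_neg]
      rw [← div_eq_mul_inv, div_le_one (Real.exp_pos _)]
      exact h3
    have h5 : Real.cosh u * Real.exp (-(c / 2 * Real.cosh u)) ≤ 2 / c := by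
      rw [le_div_iff₀ hc]
      nlinarith
    rw [h2, ← mul_assoc]
    exact mul_le_mul_of_nonneg_right h5 (Real.exp_pos _).le

/-- The integrand, its derivative in `b`, and the primitive of the latter. -/
noncomputable def F (r b u : ℝ) : ℝ :=
  Real.exp (-(r * Real.cos b * Real.cosh u)) * Real.cos (r * Real.sin b * Real.sinh u)

noncomputable def F' (r b u : ℝ) : ℝ :=
  Real.exp (-(r * Real.cos b * Real.cosh u)) *
    (r * Real.sin b * Real.cosh u * Real.cos (r * Real.sin b * Real.sinh u) -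
      r * Real.cos b * Real.sinh u * Real.sin (r * Real.sin b * Real.sinh u))

noncomputable def P (r b u : ℝ) : ℝ :=
  Real.exp (-(r * Real.cos b * Real.cosh u)) * Real.sin (r * Real.sin b * Real.sinh u)

theorem hasDeriv_F (r b u : ℝ) : HasDerivAt (fun b => F r b u) (F' r b u) b := by
  unfold F F'
  have h1 : HasDerivAt (fun b => Real.exp (-(r * Real.cos b * Real.cosh u)))
      (Real.exp (-(r * Real.cos b * Real.cosh u)) * -(r * (-Real.sin b) * Real.cosh u)) b :=
    ((((Real.hasDerivAt_cos b).const_mul r).mul_const (Real.cosh u)).neg).exp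
  have h2 : HasDerivAt (fun b => Real.cos (r * Real.sin b * Real.sinh u))
      (-Real.sin (r * Real.sin b * Real.sinh u) * (r * Real.cos b * Real.sinh u)) b :=
    (((Real.hasDerivAt_sin b).const_mul r).mul_const (Real.sinh u)).cos
  refine (h1.mul h2).congr_deriv ?_
  ring

theorem hasDeriv_P (r b u : ℝ) : HasDerivAt (P r b) (F' r b u) u := by
  unfold P F'
  have h1 : HasDerivAt (fun u => Real.exp (-(r * Real.cos b * Real.cosh u)))
      (Real.exp (-(r * Real.cos b * Real.cosh u)) * -(r * Real.cos b * Real.sinh u)) u :=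
    (((Real.hasDerivAt_cosh u).const_mul (r * Real.cos b)).neg).exp
  have h2 : HasDerivAt (fun u => Real.sin (r * Real.sin b * Real.sinh u))
      (Real.cos (r * Real.sin b * Real.sinh u) * (r * Real.sin b * Real.cosh u)) u :=
    ((Real.hasDerivAt_sinh u).const_mul (r * Real.sin b)).sin
  refine (h1.mul h2).congr_deriv ?_
  ring

theorem cont_F (r b : ℝ) : Continuous (F r b) := by
  unfold F
  fun_prop

theorem cont_F' (r b : ℝ) : Continuous (F' r b) := by
  unfold F'
  fun_prop

theorem exp_le {r b b₁ u : ℝ} (hr : 0 < r) (hb : |b| ≤ b₁) (hb₁ : b₁ ≤ Real.pi / 2) :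
    Real.exp (-(r * Real.cos b * Real.cosh u)) ≤ Real.exp (-(r * Real.cos b₁ * Real.cosh u)) := by
  apply Real.exp_le_exp.2
  have h1 : Real.cos b₁ ≤ Real.cos b := by
    rw [← Real.cos_abs b]
    exact Real.cos_le_cos_of_nonneg_of_le_pi (abs_nonneg b) (by linarith [Real.pi_pos]) hb
  have h2 := Real.cosh_pos u
  have h3 : r * Real.cos b₁ * Real.cosh u ≤ r * Real.cos b * Real.cosh u :=
    mul_le_mul_of_nonneg_right (mul_le_mul_of_nonneg_left h1 hr.le) h2.le
  linarith

theorem bound_F' {r b b₁ u : ℝ} (hr : 0 < r) (hb : |b| ≤ b₁) (hb₁ : b₁ ≤ Real.pi / 2)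
    (hu : 0 < u) :
    ‖F' r b u‖ ≤ 2 * r * (Real.cosh u * Real.exp (-(r * Real.cos b₁ * Real.cosh u))) := by
  unfold F'
  rw [norm_mul, Real.norm_of_nonneg (Real.exp_pos _).le, Real.norm_eq_abs]
  have h2 := Real.cosh_pos u
  have h3 : 0 ≤ Real.sinh u := Real.sinh_nonneg_iff.2 hu.le
  have h4 : Real.sinh u ≤ Real.cosh u := (Real.sinh_lt_cosh u).le
  have h5 : |r * Real.sin b * Real.cosh u * Real.cos (r * Real.sin b * Real.sinh u)| ≤
      r * Real.cosh u := by
    rw [abs_mul, abs_mul, abs_mul, abs_of_pos hr, abs_of_pos h2]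
    have e1 := Real.abs_sin_le_one b
    have e2 := Real.abs_cos_le_one (r * Real.sin b * Real.sinh u)
    have e3 : r * |Real.sin b| * Real.cosh u ≤ r * 1 * Real.cosh u :=
      mul_le_mul_of_nonneg_right (mul_le_mul_of_nonneg_left e1 hr.le) h2.le
    calc r * |Real.sin b| * Real.cosh u * |Real.cos (r * Real.sin b * Real.sinh u)|
        ≤ (r * 1 * Real.cosh u) * 1 :=
          mul_le_mul e3 e2 (abs_nonneg _) (by positivity)
      _ = r * Real.cosh u := by ring
  have h6 : |r * Real.cos b * Real.sinh u * Real.sin (r * Real.sin b * Real.sinh u)| ≤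
      r * Real.cosh u := by
    rw [abs_mul, abs_mul, abs_mul, abs_of_pos hr, abs_of_nonneg h3]
    have e1 := Real.abs_cos_le_one b
    have e2 := Real.abs_sin_le_one (r * Real.sin b * Real.sinh u)
    have e3 : r * |Real.cos b| * Real.sinh u ≤ r * 1 * Real.cosh u :=
      mul_le_mul (mul_le_mul_of_nonneg_left e1 hr.le) h4 h3 (by positivity)
    calc r * |Real.cos b| * Real.sinh u * |Real.sin (r * Real.sin b * Real.sinh u)|
        ≤ (r * 1 * Real.cosh u) * 1 :=
          mul_le_mul e3 e2 (abs_nonneg _) (by positivity)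
      _ = r * Real.cosh u := by ring
  have h7 := abs_sub (r * Real.sin b * Real.cosh u * Real.cos (r * Real.sin b * Real.sinh u))
    (r * Real.cos b * Real.sinh u * Real.sin (r * Real.sin b * Real.sinh u))
  have h8 : |r * Real.sin b * Real.cosh u * Real.cos (r * Real.sin b * Real.sinh u) -
      r * Real.cos b * Real.sinh u * Real.sin (r * Real.sin b * Real.sinh u)| ≤
      2 * r * Real.cosh u := by linarith
  calc Real.exp (-(r * Real.cos b * Real.cosh u)) * _
      ≤ Real.exp (-(r * Real.cos b₁ * Real.cosh u)) * (2 * r * Real.cosh u) :=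
        mul_le_mul (exp_le hr hb hb₁) h8 (abs_nonneg _) (Real.exp_pos _).le
    _ = _ := by ring

theorem int_F {r b b₁ : ℝ} (hr : 0 < r) (hb : |b| ≤ b₁) (hb₁ : b₁ < Real.pi / 2) :
    IntegrableOn (F r b) (Ioi 0) := by
  have hb0 : 0 ≤ b₁ := (abs_nonneg b).trans hb
  have hc : 0 < r * Real.cos b₁ :=
    mul_pos hr (Real.cos_pos_of_mem_Ioo ⟨by linarith [Real.pi_pos], hb₁⟩)
  refine Integrable.mono' (int_exp hc) (cont_F r b).aestronglyMeasurable ?_
  refine (ae_restrict_iff' measurableSet_Ioi).2 (ae_of_all _ fun u _ => ?_)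
  unfold F
  rw [norm_mul, Real.norm_of_nonneg (Real.exp_pos _).le, Real.norm_eq_abs]
  calc Real.exp (-(r * Real.cos b * Real.cosh u)) * |Real.cos (r * Real.sin b * Real.sinh u)|
      ≤ Real.exp (-(r * Real.cos b₁ * Real.cosh u)) * 1 :=
        mul_le_mul (exp_le hr hb hb₁.le) (Real.abs_cos_le_one _) (abs_nonneg _)
          (Real.exp_pos _).le
    _ = _ := mul_one _

theorem int_F' {r b b₁ : ℝ} (hr : 0 < r) (hb : |b| ≤ b₁) (hb₁ : b₁ < Real.pi / 2) :
    IntegrableOn (F' r b) (Ioi 0) := by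
  have hb0 : 0 ≤ b₁ := (abs_nonneg b).trans hb
  have hc : 0 < r * Real.cos b₁ :=
    mul_pos hr (Real.cos_pos_of_mem_Ioo ⟨by linarith [Real.pi_pos], hb₁⟩)
  refine Integrable.mono' ((int_cosh_exp hc).const_mul (2 * r))
    (cont_F' r b).aestronglyMeasurable ?_
  exact (ae_restrict_iff' measurableSet_Ioi).2 (ae_of_all _ fun u hu => bound_F' hr hb hb₁.le hu)

theorem integral_F' {r b b₁ : ℝ} (hr : 0 < r) (hb : |b| ≤ b₁) (hb₁ : b₁ < Real.pi / 2) :
    ∫ u in Ioi (0:ℝ), F' r b u = 0 := by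
  have hb0 : 0 ≤ b₁ := (abs_nonneg b).trans hb
  have hc : 0 < r * Real.cos b₁ :=
    mul_pos hr (Real.cos_pos_of_mem_Ioo ⟨by linarith [Real.pi_pos], hb₁⟩)
  have hlim : Tendsto (P r b) atTop (𝓝 0) := by
    have h1 : Tendsto (fun u : ℝ => Real.exp (-(r * Real.cos b₁ * u))) atTop (𝓝 0) := by
      have := (tendsto_id (α := ℝ) (x := atTop)).const_mul_atTop hc
      exact Real.tendsto_exp_neg_atTop_nhds_zero.comp this
    refine squeeze_zero_norm' ?_ h1
    filter_upwards [eventually_ge_atTop (0:ℝ)] with u hu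
    unfold P
    rw [norm_mul, Real.norm_of_nonneg (Real.exp_pos _).le, Real.norm_eq_abs]
    calc Real.exp (-(r * Real.cos b * Real.cosh u)) * |Real.sin (r * Real.sin b * Real.sinh u)|
        ≤ Real.exp (-(r * Real.cos b₁ * Real.cosh u)) * 1 :=
          mul_le_mul (exp_le hr hb hb₁.le) (Real.abs_sin_le_one _) (abs_nonneg _)
            (Real.exp_pos _).le
      _ = Real.exp (-(r * Real.cos b₁ * Real.cosh u)) := mul_one _
      _ ≤ Real.exp (-(r * Real.cos b₁ * u)) := by
          apply Real.exp_le_exp.2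
          have := le_cosh hu
          nlinarith
  have hcont : Continuous (P r b) := by
    unfold P
    fun_prop
  rw [integral_Ioi_of_hasDerivAt_of_tendsto hcont.continuousWithinAt
    (fun u _ => hasDeriv_P r b u) (int_F' hr hb hb₁) hlim]
  unfold P
  simp

theorem hasDeriv_int {r b b₁ : ℝ} (hr : 0 < r) (hb : |b| < b₁) (hb₁ : b₁ < Real.pi / 2) :
    HasDerivAt (fun b => ∫ u in Ioi (0:ℝ), F r b u) 0 b := by
  have hb0 : 0 ≤ b₁ := (abs_nonneg b).trans hb.le
  have hc : 0 < r * Real.cos b₁ :=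
    mul_pos hr (Real.cos_pos_of_mem_Ioo ⟨by linarith [Real.pi_pos], hb₁⟩)
  have hs : Ioo (-b₁) b₁ ∈ 𝓝 b := by
    rw [abs_lt] at hb
    exact Ioo_mem_nhds hb.1 hb.2
  have h := hasDerivAt_integral_of_dominated_loc_of_deriv_le (μ := volume.restrict (Ioi (0:ℝ)))
    (F := F r) (F' := F' r) (x₀ := b) (s := Ioo (-b₁) b₁)
    (bound := fun u => 2 * r * (Real.cosh u * Real.exp (-(r * Real.cos b₁ * Real.cosh u))))
    hs (Eventually.of_forall fun x => (cont_F r x).aestronglyMeasurable)
    (int_F hr hb.le hb₁) (cont_F' r b).aestronglyMeasurable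
    ((ae_restrict_iff' measurableSet_Ioi).2 (ae_of_all _ fun u hu x hx =>
      bound_F' hr (abs_le.2 ⟨hx.1.le, hx.2.le⟩) hb₁.le hu))
    ((int_cosh_exp hc).const_mul (2 * r))
    (ae_of_all _ fun u x _ => hasDeriv_F r x u)
  have h2 := h.2
  rwa [integral_F' hr hb.le hb₁] at h2

theorem thm : G_GL1 := by
  intro A B hA
  set r := Real.sqrt (A ^ 2 + B ^ 2) with hr
  have hpos : 0 < A ^ 2 + B ^ 2 := by positivity
  have hr0 : 0 < r := Real.sqrt_pos.2 hpos
  set α := Real.arctan (B / A) with hα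
  have hsq : Real.sqrt (1 + (B / A) ^ 2) = r / A := by
    have : 1 + (B / A) ^ 2 = (A ^ 2 + B ^ 2) / A ^ 2 := by
      field_simp
    rw [this, Real.sqrt_div hpos.le, Real.sqrt_sq hA.le]
  have hcos : r * Real.cos α = A := by
    rw [hα, Real.cos_arctan, hsq]
    field_simp
  have hsin : r * Real.sin α = B := by
    rw [hα, Real.sin_arctan, hsq]
    field_simp
  have hα1 : |α| < Real.pi / 2 :=
    abs_lt.2 ⟨Real.neg_pi_div_two_lt_arctan _, Real.arctan_lt_pi_div_two _⟩
  set b₁ := (|α| + Real.pi / 2) / 2 with hb₁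
  have h1 : |α| < b₁ := by rw [hb₁]; linarith
  have h2 : b₁ < Real.pi / 2 := by rw [hb₁]; linarith
  have h3 : 0 < b₁ := (abs_nonneg α).trans_lt h1
  have hd : ∀ b ∈ Ioo (-b₁) b₁, HasDerivAt (fun b => ∫ u in Ioi (0:ℝ), F r b u) 0 b :=
    fun b hb => hasDeriv_int hr0 (abs_lt.2 ⟨hb.1, hb.2⟩) h2
  have hconst := isOpen_Ioo.is_const_of_deriv_eq_zero (s := Ioo (-b₁) b₁)
    (f := fun b => ∫ u in Ioi (0:ℝ), F r b u) isPreconnected_Ioo
    (fun b hb => (hd b hb).differentiableAt.differentiableWithinAt)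
    (fun b hb => (hd b hb).deriv) (x := α) (y := 0) (abs_lt.1 h1) ⟨by linarith, h3⟩
  have e1 : ∀ u, F r α u = Real.exp (-(A * Real.cosh u)) * Real.cos (B * Real.sinh u) := by
    intro u
    unfold F
    rw [hcos, hsin]
  have e2 : ∀ u, F r 0 u = Real.exp (-(r * Real.cosh u)) := by
    intro u
    unfold F
    simp
  simp only [e1, e2] at hconst
  rw [hconst]
  rfl

end EC237.PB.PkGL1
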